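import Pool.Agent.N879.GD.BA
import Pool.Agent.N879.GD.BB
import Pool.Agent.N879.GD.Cor
import Pool.Agent.N879.GD.Cov
import Pool.Agent.N879.GD.Cru
import Pool.Agent.N879.GD.Det
import Pool.Agent.N879.GD.Dia
import Pool.Agent.N879.GD.Dil1
import Pool.Agent.N879.GD.Dilk
import Pool.Agent.N879.GD.Fin
import Pool.Agent.N879.GD.Gam
import Pool.Agent.N879.GD.Gf
import Pool.Agent.N879.GD.Int
import Pool.Agent.N879.GD.LL
import Pool.Agent.N879.GD.Lem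
import Pool.Agent.N879.GD.Lew
import Pool.Agent.N879.GD.Lip
import Pool.Agent.N879.GD.M4b
import Pool.Agent.N879.GD.Mb
import Pool.Agent.N879.GD.Ofi
import Pool.Agent.N879.GD.Pl
import Pool.Agent.N879.GD.Sum
import Pool.Agent.Y587.GP.V
import Pool.Agent.Y587.GP.Chi
import Pool.Agent.Y891.GP.AFE

set_option autoImplicit false

/-!
Moments of products of zeta at generic dilations: for every `k`, for every weight `F` whose mean square
is `T^(1+o(1))`, and for all `(l_1, ..., l_k)` outside a set of Hausdorff dimension smaller than `k`,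
`∫_0^T F(t) ∏ |ζ(1/2+i l_j t)|² dt = ∫_0^T F(t) ∏ (log(l_j t/2π) + 2γ) dt + O(T^(1-δ))`.
-/

namespace Pool.Agent.Results.MP_91b7ff_nt.GenericDilations

open Complex Filter Topology MeasureTheory Set
open Pool.Agent.N879.GD

noncomputable section

theorem s_m4 : S_M4 := t_M4'

theorem s_fin : S_FIN := by
  have hV := Pool.Agent.Y587.GP.t_V
  have hAFE := Pool.Agent.Y891.GP.t_AFE hV Pool.Agent.Y587.GP.Chi.t_CHI
  have hGK := t_GK t_GAM
  have hSUM := t_SUM (t_BA hGK) (t_BB t_GF hGK t_LL)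
  have hLEM := t_LEM hAFE (t_OFI hV t_GF hSUM) (t_DIA hV) t_CRU
  have hDIL1 := t_DIL1 (t_LEW hLEM) t_PL t_CRU
  exact t_FIN hDIL1 (t_DILK s_m4 t_CRU) t_COV (t_INT t_CRU) (t_MB t_CRU) (t_LIP t_CRU)
    (t_DET t_CRU (t_INT t_CRU))

/-- the main theorem -/
theorem result : ∃ δ : ℝ, 0 < δ ∧ δ < 1 ∧ ∀ k : ℕ, 0 < k → ∃ s : ℝ, 0 < s ∧ s < k ∧
    (∀ F : ℝ → ℂ, Measurable F →
      (∀ ε : ℝ, 0 < ε → ∃ C : ℝ, ∀ T : ℝ, 1 ≤ T →
        ∫⁻ t in Ioc 0 T, ‖F t‖ₑ ^ 2 ≤ ENNReal.ofReal (C * T ^ (1 + ε))) →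
      ∃ E : Set (Fin k → ℝ), dimH E ≤ ENNReal.ofReal s ∧
        ∀ l : Fin k → ℝ, l ∉ E → (∀ j, 0 < l j) →
          (∀ T : ℝ, 0 < T →
            IntervalIntegrable (fun t => F t *
              ((∏ j, ‖riemannZeta (1 / 2 + I * ((l j * t : ℝ) : ℂ))‖ ^ 2 : ℝ) : ℂ)) volume 0 T ∧
            IntervalIntegrable (fun t => F t * ((∏ j, (Real.log (l j * t / (2 * Real.pi)) +
              2 * Real.eulerMascheroniConstant) : ℝ) : ℂ)) volume 0 T) ∧
          ∃ C : ℝ, ∀ T : ℝ, 1 ≤ T →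
            ‖(∫ t in (0 : ℝ)..T, F t *
                ((∏ j, ‖riemannZeta (1 / 2 + I * ((l j * t : ℝ) : ℂ))‖ ^ 2 : ℝ) : ℂ)) -
              ∫ t in (0 : ℝ)..T, F t * ((∏ j, (Real.log (l j * t / (2 * Real.pi)) +
                2 * Real.eulerMascheroniConstant) : ℝ) : ℂ)‖ ≤ C * T ^ (1 - δ)) ∧
    (∀ b : ℝ, 0 ≤ b → b ≤ 2 → ∃ E : Set (Fin k → ℝ), dimH E ≤ ENNReal.ofReal s ∧
      ∀ l : Fin k → ℝ, l ∉ E → (∀ j, 0 < l j) → ∃ C : ℝ, ∀ T : ℝ, 1 ≤ T →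
        |(∫ t in (0 : ℝ)..T, ‖riemannZeta (1 / 2 + I * (t : ℂ))‖ ^ b *
            ∏ j, ‖riemannZeta (1 / 2 + I * ((l j * t : ℝ) : ℂ))‖ ^ 2) -
          ∫ t in (0 : ℝ)..T, ‖riemannZeta (1 / 2 + I * (t : ℂ))‖ ^ b *
            ∏ j, (Real.log (l j * t / (2 * Real.pi)) + 2 * Real.eulerMascheroniConstant)| ≤
          C * T ^ (1 - δ)) ∧
    ∃ E : Set (Fin k → ℝ), dimH E ≤ ENNReal.ofReal s ∧
      ∀ l : Fin k → ℝ, l ∉ E → (∀ j, 0 < l j) →
        Tendsto (fun T : ℝ => (∫ t in (0 : ℝ)..T,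
          ∏ j, ‖riemannZeta (1 / 2 + I * ((l j * t : ℝ) : ℂ))‖ ^ 2) / (T * Real.log T ^ k))
          atTop (𝓝 1) := by
  obtain ⟨δ, hδ, hδ1, hmain⟩ := s_fin
  refine ⟨δ, hδ, hδ1, fun k hk => ?_⟩
  obtain ⟨s, hs, hsk, hF⟩ := hmain k hk
  have hb : ∀ b : ℝ, 0 ≤ b → b ≤ 2 → ∃ E : Set (Fin k → ℝ), dimH E ≤ ENNReal.ofReal s ∧
      ∀ l : Fin k → ℝ, l ∉ E → (∀ j, 0 < l j) → ∃ C : ℝ, ∀ T : ℝ, 1 ≤ T →
        |(∫ t in (0 : ℝ)..T, ‖riemannZeta (1 / 2 + I * (t : ℂ))‖ ^ b *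
            ∏ j, ‖riemannZeta (1 / 2 + I * ((l j * t : ℝ) : ℂ))‖ ^ 2) -
          ∫ t in (0 : ℝ)..T, ‖riemannZeta (1 / 2 + I * (t : ℂ))‖ ^ b *
            ∏ j, (Real.log (l j * t / (2 * Real.pi)) + 2 * Real.eulerMascheroniConstant)| ≤
          C * T ^ (1 - δ) := by
    intro b hb0 hb2
    obtain ⟨E, hE, h1⟩ := hF _ (gr_pow t_CRU s_m4 b hb0 hb2)
    refine ⟨E, hE, fun l hl hl0 => ?_⟩
    obtain ⟨C, hC⟩ := h1 l hl hl0
    refine ⟨C, fun T hT => ?_⟩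
    have h2 := hC T hT
    have e1 : ∀ g : ℝ → ℝ, ∫ t in (0 : ℝ)..T, ((‖riemannZeta (1 / 2 + I * t)‖ ^ b : ℝ) : ℂ) *
        ((g t : ℝ) : ℂ) = ((∫ t in (0 : ℝ)..T, ‖riemannZeta (1 / 2 + I * t)‖ ^ b * g t : ℝ) : ℂ) := by
      intro g
      rw [← intervalIntegral.integral_ofReal]
      refine intervalIntegral.integral_congr fun t _ => ?_
      push_cast
      rfl
    rw [e1 (fun t => ∏ j, Pool.Agent.Y969.GP.ff (l j * t)), e1 (fun t => ∏ j, D0 (l j * t)),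
      ← Complex.ofReal_sub, Complex.norm_real, Real.norm_eq_abs] at h2
    exact h2
  refine ⟨s, hs, hsk, ?_, hb, ?_⟩
  · intro F hFm hFg
    have hGr : Gr F := by
      refine ⟨hFm, fun ε hε => ?_⟩
      obtain ⟨C, hC⟩ := hFg ε hε
      refine ⟨max C 1, lt_max_of_lt_right one_pos, fun T hT => (hC T hT).trans ?_⟩
      apply ENNReal.ofReal_le_ofReal
      have : 0 ≤ T ^ (1 + ε) := Real.rpow_nonneg (by linarith) _
      exact mul_le_mul_of_nonneg_right (le_max_left _ _) this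
    obtain ⟨E, hE, h1⟩ := hF F hGr
    refine ⟨E, hE, fun l hl hl0 => ⟨fun T hT => ?_, h1 l hl hl0⟩⟩
    obtain ⟨h3, h4⟩ := t_INT t_CRU k F hGr l hl0 T
    rw [intervalIntegrable_iff_integrableOn_Ioc_of_le hT.le,
      intervalIntegrable_iff_integrableOn_Ioc_of_le hT.le]
    exact ⟨h3, h4⟩
  · obtain ⟨E, hE, h1⟩ := hb 0 le_rfl (by norm_num)
    refine ⟨E, hE, fun l hl hl0 => ?_⟩
    obtain ⟨C, hC⟩ := h1 l hl hl0
    have h2 := main_one l hl0
    set A : ℝ → ℝ := fun T => ∫ t in (0 : ℝ)..T,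
      ∏ j, ‖riemannZeta (1 / 2 + I * ((l j * t : ℝ) : ℂ))‖ ^ 2 with hA
    set B : ℝ → ℝ := fun T => ∫ t in (0 : ℝ)..T, ∏ j, D0 (l j * t) with hB
    have h3 : ∀ T : ℝ, 1 ≤ T → |A T - B T| ≤ C * T ^ (1 - δ) := by
      intro T hT
      have h4 := hC T hT
      simp only [Real.rpow_zero, one_mul] at h4
      exact h4
    have hC0 : 0 ≤ C := by
      have h4 := (abs_nonneg _).trans (h3 1 le_rfl)
      simpa using h4
    have h5 : Tendsto (fun T : ℝ => (A T - B T) / (T * Real.log T ^ k)) atTop (𝓝 0) := by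
      have h6 : Tendsto (fun T : ℝ => C * T ^ (-δ)) atTop (𝓝 0) := by
        have := (tendsto_rpow_neg_atTop hδ).const_mul C
        rwa [mul_zero] at this
      refine squeeze_zero_norm' ?_ h6
      filter_upwards [eventually_ge_atTop (Real.exp 1)] with T hT
      have hT1 : 1 ≤ T := by
        have := Real.add_one_le_exp (1 : ℝ)
        linarith
      have hT0 : 0 < T := by linarith
      have hlog : 1 ≤ Real.log T := by
        rw [← Real.log_exp 1]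
        exact Real.log_le_log (Real.exp_pos 1) hT
      have hlk : 1 ≤ Real.log T ^ k := one_le_pow₀ hlog
      rw [norm_div, Real.norm_eq_abs, Real.norm_of_nonneg (by positivity)]
      rw [div_le_iff₀ (by positivity)]
      have h7 : T ^ (1 - δ) = T ^ (-δ) * T := by
        rw [sub_eq_neg_add, Real.rpow_add hT0, Real.rpow_one]
      calc |A T - B T| ≤ C * T ^ (1 - δ) := h3 T hT1
        _ = C * T ^ (-δ) * (T * 1) := by rw [h7]; ring
        _ ≤ C * T ^ (-δ) * (T * Real.log T ^ k) := by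
            have : 0 ≤ T ^ (-δ) := Real.rpow_nonneg hT0.le _
            gcongr
    have h6 := h2.add h5
    rw [add_zero] at h6
    refine h6.congr fun T => ?_
    rw [← add_div]
    congr 1
    ring

end

end Pool.Agent.Results.MP_91b7ff_nt.GenericDilations
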